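import Pool.Agent.Helper75.DR.Final

/-!
# MP_716709_gt: dimension reduction in `ℓ₁`, `K(n, D) ≤ C n^{C/D} (log n)^2 min(D, log n)^2`
-/

set_option autoImplicit false

namespace Pool.Agent.Results.MP_716709_gt.DimReduction

/-- The Banach space `ℓ₁` of absolutely summable real sequences with `‖x‖₁ = ∑ |x_i|`. -/
abbrev L1 : Type := lp (fun _ : ℕ => ℝ) 1

/-- The finite set `M ⊂ ℓ₁` (with the induced metric) embeds with distortion `D` into `ℓ₁^k`: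
there are a map `f : M → ℓ₁^k` and `s > 0` with
`s ‖x - y‖ ≤ ‖f x - f y‖ ≤ s D ‖x - y‖` for all `x, y ∈ M`. -/
def Embeds (M : Finset L1) (D : ℝ) (k : ℕ) : Prop :=
  ∃ (f : M → PiLp 1 (fun _ : Fin k => ℝ)) (s : ℝ), 0 < s ∧ ∀ x y : M,
    s * ‖(x : L1) - (y : L1)‖ ≤ ‖f x - f y‖ ∧ ‖f x - f y‖ ≤ s * D * ‖(x : L1) - (y : L1)‖

/-- `dim_D(M; {ℓ₁^k})`: the least `k` such that `M` embeds with distortion `D` into `ℓ₁^k`. -/
noncomputable def dimD (M : Finset L1) (D : ℝ) : ℕ∞ :=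
  ⨅ (k : ℕ) (_ : Embeds M D k), (k : ℕ∞)

/-- `K(n, D)`: the supremum of `dim_D(M; {ℓ₁^k})` over all `M ⊂ ℓ₁` with `|M| ≤ n`. -/
noncomputable def K (n : ℕ) (D : ℝ) : ℕ∞ :=
  ⨆ (M : Finset L1) (_ : M.card ≤ n), dimD M D

/-- `K(n, D) ≤ C n^{C/D} min(D, log n)^2 (log n)^2` for all `n ≥ 2` and `D ≥ 1`. -/
theorem result : ∃ C : ℝ, 0 < C ∧ ∀ (n : ℕ) (D : ℝ), 2 ≤ n → 1 ≤ D →
    ∃ k : ℕ, K n D ≤ (k : ℕ∞) ∧
      (k : ℝ) ≤ C * (n : ℝ) ^ (C / D) * (min D (Real.log n)) ^ 2 * (Real.log n) ^ 2 := by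
  refine ⟨10 ^ 18, by norm_num, fun n D hn hD => ?_⟩
  obtain ⟨k0, hk0, h⟩ := Pool.Agent.Helper75.DR.dim_bound n hn D hD
  refine ⟨k0, ?_, hk0⟩
  refine iSup₂_le fun M hM => ?_
  obtain ⟨k, hk, F, s, hs, hF⟩ := h M hM
  have hE : Embeds M D k := by
    refine ⟨fun x => WithLp.toLp 1 (F x), s, hs, fun x y => ?_⟩
    have h1 : ‖WithLp.toLp 1 (F x) - (WithLp.toLp 1 (F y) : PiLp 1 (fun _ : Fin k => ℝ))‖ =
        ∑ i, |F x i - F y i| := by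
      rw [PiLp.norm_eq_of_L1]
      rfl
    rw [h1, ← dist_eq_norm]
    exact hF x y
  exact (iInf₂_le k hE).trans (by exact_mod_cast hk)

end Pool.Agent.Results.MP_716709_gt.DimReduction
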